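import Pool.Agent.helper66.LIN.Spec

set_option autoImplicit false

namespace LSH.Lin

theorem CHO (hCHP : CHP_stmt) (hGTF : GTF_stmt) : CHO_stmt := by
  classical
  intro P L σ X hcfg hL
  have hmm : ∀ t : BT, 1 ≤ t.mm := fun t => (hGTF.2.2.2.2.2.2.2 t).1
  have hne : (P.filter fun q => ∃ i ∈ L, ∃ up, i.2.mm ≤ (avs P L σ i.1 up q.1).card).Nonempty := by
    obtain ⟨q, hq, h⟩ := hCHP P L σ X hcfg hL
    exact ⟨q, Finset.mem_filter.mpr ⟨hq, h⟩⟩
  obtain ⟨q, hqQ, hmin⟩ := Finset.exists_min_image _ (fun q : Pt => q.1) hne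
  obtain ⟨hqP, i, hi, up, hbig⟩ := Finset.mem_filter.mp hqQ
  have hsmall : ∀ j ∈ L, ∀ d, ((avs P L σ j.1 d q.1).erase q).card < j.2.mm := by
    intro j hj d
    by_contra hcon
    rw [not_lt] at hcon
    have hBne : ((avs P L σ j.1 d q.1).erase q).Nonempty := by
      rw [← Finset.card_pos]
      have := hmm j.2
      omega
    have hB : ∀ b ∈ (avs P L σ j.1 d q.1).erase q, b ∈ P ∧ b.1 < q.1 := by
      intro b hb
      obtain ⟨hbq, hb2⟩ := Finset.mem_erase.mp hb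
      unfold avs at hb2
      obtain ⟨hbP, hb3⟩ := Finset.mem_filter.mp hb2
      refine ⟨hbP, lt_of_le_of_ne hb3.2.1 ?_⟩
      exact (hcfg.gen b (Finset.mem_coe.mpr hbP) q (Finset.mem_coe.mpr hqP) hbq).1
    obtain ⟨q', hq', hmax⟩ := Finset.exists_max_image _ (fun q : Pt => q.1) hBne
    have hsub : (avs P L σ j.1 d q.1).erase q ⊆ avs P L σ j.1 d q'.1 := by
      intro b hb
      have hmb := hmax b hb
      obtain ⟨hbq, hb2⟩ := Finset.mem_erase.mp hb
      unfold avs at hb2 ⊢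
      obtain ⟨hbP, hb3⟩ := Finset.mem_filter.mp hb2
      exact Finset.mem_filter.mpr ⟨hbP, hb3.1, hmb, hb3.2.2⟩
    have h1 : q' ∈ (P.filter fun q => ∃ i ∈ L, ∃ up, i.2.mm ≤ (avs P L σ i.1 up q.1).card) := by
      refine Finset.mem_filter.mpr ⟨(hB q' hq').1, j, hj, d, ?_⟩
      exact hcon.trans (Finset.card_le_card hsub)
    have h2 := hmin q' h1
    exact absurd (hB q' hq').2 (not_lt.mpr h2)
  refine ⟨i.1, i.2, up, q.1, q, hi, ?_⟩
  refine ⟨?_, ?_, rfl, hbig, hsmall⟩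
  · by_contra hcon
    rw [not_lt] at hcon
    have hsub : avs P L σ i.1 up q.1 ⊆ avs P L σ i.1 up X := by
      intro b hb
      unfold avs at hb ⊢
      obtain ⟨hbP, hb3⟩ := Finset.mem_filter.mp hb
      exact Finset.mem_filter.mpr ⟨hbP, hb3.1, hb3.2.1.trans hcon, hb3.2.2⟩
    have h1 := hcfg.cnt i hi up
    have h2 := Finset.card_le_card hsub
    omega
  · by_contra hcon
    have h1 := hsmall i hi up
    rw [Finset.erase_eq_of_notMem hcon] at h1
    omega

end LSH.Lin
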