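import Pool.Agent.helper66.LIN.Spec

set_option autoImplicit false

namespace LSH.Lin

lemma GDN_fyfy (z : Pt) : fy (fy z) = z := by
  unfold fy
  simp

lemma GDN_inj : Function.Injective fy := fun a b h => by
  have h1 := congrArg fy h
  rwa [GDN_fyfy, GDN_fyfy] at h1

theorem GDN (hGUP : GUP_stmt) (hGRE : GRE_stmt) : GDN_stmt := by
  intro u t Z hgen hZ hcard
  have hgen' : Gen (insert (fy u) ((Z.image fy : Finset Pt) : Set Pt)) := by
    have key : ∀ a ∈ (insert (fy u) ((Z.image fy : Finset Pt) : Set Pt)),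
        ∃ a' ∈ insert u (Z : Set Pt), fy a' = a := by
      intro a ha
      rcases ha with ha | ha
      · exact ⟨u, Set.mem_insert _ _, ha.symm⟩
      · rw [Finset.coe_image] at ha
        obtain ⟨a', h1, h2⟩ := ha
        exact ⟨a', Set.mem_insert_of_mem _ h1, h2⟩
    intro a ha b hb hab
    obtain ⟨a', ha', rfl⟩ := key a ha
    obtain ⟨b', hb', rfl⟩ := key b hb
    have h := hgen a' ha' b' hb' (fun h => hab (by rw [h]))
    refine ⟨h.1, fun h2 => h.2 ?_⟩
    exact neg_injective h2
  obtain ⟨G, hG⟩ := hGUP (fy u) t (Z.image fy) hgen' (by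
    intro z hz
    rw [Finset.mem_image] at hz
    obtain ⟨z', hz', rfl⟩ := hz
    have h := hZ z' hz'
    exact ⟨h.1, neg_lt_neg h.2⟩) (by
    rwa [Finset.card_image_of_injective _ GDN_inj])
  have h := hGRE.2.2 (fy u) t (Z.image fy) G hG
  rw [GDN_fyfy, Finset.image_image] at h
  have h2 : fy ∘ fy = id := by
    funext z
    exact GDN_fyfy z
  rw [h2, Finset.image_id] at h
  exact ⟨_, h⟩

end LSH.Lin
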