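import Pool.Agent.helper66.LIN.Spec

set_option autoImplicit false

namespace LSH.Lin

theorem GUP (hESZ : ESZ_stmt) (hPIN : PIN_stmt) (hAGA : AGA_stmt) (hATT : ATT_stmt)
    (hGTF : GTF_stmt) (hOB : OB_stmt) : GUP_stmt := by
  intro u t Z hgen hZ hcard
  have hgenZ : Gen (Z : Set Pt) := fun a ha b hb hab =>
    hgen a (Set.mem_insert_of_mem _ ha) b (Set.mem_insert_of_mem _ hb) hab
  obtain ⟨C, hCZ, hC⟩ := hESZ Z t.al t.pl hgenZ hcard
  have hgenC : Gen (C : Set Pt) := fun a ha b hb hab =>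
    hgenZ a (Finset.mem_coe.mpr (hCZ (Finset.mem_coe.mp ha))) b
      (Finset.mem_coe.mpr (hCZ (Finset.mem_coe.mp hb))) hab
  have hsub : ∀ a ∈ insert u (C : Set Pt), a ∈ insert u (Z : Set Pt) := by
    intro a ha
    rcases ha with ha | ha
    · exact Or.inl ha
    · exact Or.inr (Finset.mem_coe.mpr (hCZ (Finset.mem_coe.mp ha)))
  have hgenu : Gen (insert u (C : Set Pt)) := fun a ha b hb hab =>
    hgen a (hsub a ha) b (hsub b hb) hab
  have mono : ∀ G : GT, Gad u t C G → Gad u t Z G := fun G h =>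
    ⟨h.shape, fun p hp => hCZ (h.pts p hp), h.nodup, h.nc, h.ray⟩
  have hCu : ∀ c ∈ C, u.1 < c.1 ∧ u.2 < c.2 := fun c hc => hZ c (hCZ hc)
  rcases hC with ⟨hinc, hcardC⟩ | ⟨hdec, hcardC⟩
  · obtain ⟨G, hG, hG2⟩ := hPIN t C hgenC hinc hcardC.ge
    refine ⟨G, mono G (hATT u t C G hgenu hCu hG ?_ ?_)⟩
    · intro e he z hz h1 h2
      have hab := hGTF.2.1 G e he
      have hbox := (hOB.1 e z hz).2
      have ha := (hG2 _ hab.1).2
      have hb := (hG2 _ hab.2).2
      rw [Set.mem_uIcc] at hbox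
      have h3 : G.root.2 ≤ z.2 := by
        rcases hbox with h | h
        · exact ha.trans h.1
        · exact hb.trans h.1
      exact Prod.ext h1 (le_antisymm h2 h3)
    · intro i hi
      exact Or.inl (hG2 _ (hGTF.2.2.1 G i hi)).1
  · obtain ⟨G, hG, hG2⟩ := hAGA t C hgenC hdec hcardC.ge
    refine ⟨G, mono G (hATT u t C G hgenu hCu hG hG2 ?_)⟩
    intro i hi
    by_cases h : G.root.1 ≤ i.1.1
    · exact Or.inl h
    · right
      exact hdec _ (hG.pts _ (hGTF.2.2.1 G i hi)) _ (hG.pts _ (hGTF.1 G)) (not_le.mp h)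

end LSH.Lin
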