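import Pool.Agent.helper66.LIN.Spec

set_option autoImplicit false

namespace LSH.Lin

lemma PDE_fyfy (z : Pt) : fy (fy z) = z := by
  unfold fy
  simp

lemma PDE_inj : Function.Injective fy := fun a b h => by
  have h1 := congrArg fy h
  rwa [PDE_fyfy, PDE_fyfy] at h1

theorem PDE (hPIN : PIN_stmt) (hGRE : GRE_stmt) : PDE_stmt := by
  intro t C hgen hdec hcard
  have key : ∀ a ∈ C.image fy, ∃ a' ∈ C, fy a' = a := by
    intro a ha
    rwa [Finset.mem_image] at ha
  obtain ⟨G, hG, hG2⟩ := hPIN t (C.image fy) (by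
    intro a ha b hb hab
    obtain ⟨a', ha', rfl⟩ := key a (Finset.mem_coe.mp ha)
    obtain ⟨b', hb', rfl⟩ := key b (Finset.mem_coe.mp hb)
    have h := hgen a' (Finset.mem_coe.mpr ha') b' (Finset.mem_coe.mpr hb') (fun h => hab (by rw [h]))
    exact ⟨h.1, fun h2 => h.2 (neg_injective h2)⟩) (by
    intro a ha b hb hab
    obtain ⟨a', ha', rfl⟩ := key a ha
    obtain ⟨b', hb', rfl⟩ := key b hb
    have h := hdec a' ha' b' hb' hab
    exact neg_lt_neg h) (by
    rwa [Finset.card_image_of_injective _ PDE_inj])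
  have h := hGRE.2.1 t (C.image fy) G hG
  rw [Finset.image_image] at h
  have h2 : fy ∘ fy = id := by
    funext z
    exact PDE_fyfy z
  rw [h2, Finset.image_id] at h
  refine ⟨_, h, ?_⟩
  obtain ⟨h3, h4⟩ := hGRE.1 G
  rw [h3, h4]
  intro p hp
  rw [Multiset.mem_map] at hp
  obtain ⟨q, hq, rfl⟩ := hp
  have h5 := hG2 q hq
  exact ⟨h5.1, neg_le_neg h5.2⟩

end LSH.Lin
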